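import Pool.Agent.V11251.CA.Types

set_option autoImplicit false
set_option linter.unusedVariables false
set_option linter.unusedSectionVars false

open FirstOrder

namespace Pool.Agent.Results.MP_2fbd40_lc.NotDefinable

open Pool.Agent.V11251.CA

section topology

variable {V : Type} (E : V → V → Prop)

theorem t0 : T0Space (Clan E) := by
  refine ⟨fun Γ Δ h => ?_⟩
  apply Clan.ext
  ext x
  have h1 := h.mem_open_iff (isOpen_compl_hh E x)
  have h2 : (¬ x ∈ Γ.carrier) ↔ (¬ x ∈ Δ.carrier) := h1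
  exact not_iff_not.1 h2

/-- the limit of an ultrafilter of clans -/
def limClan (U : Ultrafilter (Clan E)) : Clan E where
  carrier := {x | hh E x ∈ U}
  univ_mem := by
    have : hh E Set.univ = Set.univ := Set.eq_univ_of_forall fun Γ => Γ.univ_mem
    show hh E Set.univ ∈ U
    rw [this]; exact Filter.univ_mem
  empty_not_mem := by
    have : hh E ∅ = ∅ := Set.eq_empty_of_forall_notMem fun Γ h => Γ.empty_not_mem h
    show ¬ hh E ∅ ∈ U
    rw [this]; exact U.empty_notMem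
  union_mem := by
    intro x y
    show hh E (x ∪ y) ∈ U ↔ _
    rw [hh_union]
    exact Ultrafilter.union_mem_iff
  contact := by
    intro x hx y hy
    obtain ⟨Γ, h1, h2⟩ := U.nonempty_of_mem (Filter.inter_mem hx hy)
    exact Γ.contact x h1 y h2

theorem compact : CompactSpace (Clan E) := by
  refine ⟨isCompact_iff_ultrafilter_le_nhds.2 ?_⟩
  intro U _
  refine ⟨limClan E U, trivial, ?_⟩
  rw [(basis E).nhds_hasBasis.ge_iff]
  rintro _ ⟨⟨x, rfl⟩, hx⟩
  show (hh E x)ᶜ ∈ U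
  rw [Ultrafilter.compl_mem_iff_notMem]
  exact hx

theorem semiregular (U : Set (Clan E)) (hU : IsOpen U) (Γ : Clan E) (hΓ : Γ ∈ U) :
    ∃ a : RC (Clan E), Γ ∉ a.1 ∧ a.1ᶜ ⊆ U := by
  obtain ⟨_, ⟨x, rfl⟩, hx, hxU⟩ := (basis E).exists_subset_of_mem_open hΓ hU
  exact ⟨hRC E x, hx, hxU⟩

end topology

/-! ### cyclic half graphs -/

/-- vertices of the cyclic half graph -/
abbrev Vt (N : ℕ) : Type := Fin 3 × Fin N

/-- edges of the cyclic half graph -/
def Ebl (N : ℕ) (s t : Vt N) : Prop := (t.1 = s.1 + 1 ∧ s.2 < t.2) ∨ (s.1 = t.1 + 1 ∧ t.2 < s.2)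

theorem Ebl_symm (N : ℕ) (s t : Vt N) (h : Ebl N s t) : Ebl N t s := h.symm

theorem sE_symm {I : Type} {V : I → Type} (E : ∀ i, V i → V i → Prop)
    (hE : ∀ i s t, E i s t → E i t s) (s t : Σ i, V i) (h : sE E s t) : sE E t s := by
  obtain ⟨i, s⟩ := s
  obtain ⟨j, t⟩ := t
  obtain ⟨h1, h2⟩ := h
  simp only at h1
  subst h1
  exact ⟨rfl, hE _ _ _ h2⟩

/-- the vertex class used for the `l`-th variable -/
def cls {n : ℕ} (l : Fin n) : Fin 3 := if l.val = 0 then 0 else if l.val = 1 then 1 else 2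

/-- the tuple in one block -/
def xb (n N : ℕ) : Fin n → Set (Vt N) := fun l => {s | s.1 = cls l}

theorem clan_iUnion {V : Type} {E : V → V → Prop} (Γ : Clan E) {ι : Type} [Finite ι]
    (x : ι → Set V) (h : (⋃ j, x j) ∈ Γ.carrier) : ∃ j, x j ∈ Γ.carrier := by
  classical
  have key : ∀ s : Set ι, s.Finite → (⋃ j ∈ s, x j) ∈ Γ.carrier → ∃ j, x j ∈ Γ.carrier := by
    intro s hs
    induction s, hs using Set.Finite.induction_on with
    | empty =>
      intro h0
      simp at h0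
      exact absurd h0 Γ.empty_not_mem
    | insert _ _ ih =>
      intro h1
      rw [Set.biUnion_insert] at h1
      rcases (Γ.union_mem _ _).1 h1 with h2 | h2
      · exact ⟨_, h2⟩
      · exact ih h2
  apply key Set.univ Set.finite_univ
  simpa using h

section constant

variable (I : Type) (N : ℕ)

theorem no_clan (Γ : Clan (sE (fun _ : I => Ebl N)))
    (h : ∀ p : Fin 3, {s : Σ _ : I, Vt N | s.2.1 = p} ∈ Γ.carrier) : False := by
  have h1 : ∀ p : Fin 3, ∃ j : Fin N, {s : Σ _ : I, Vt N | s.2 = (p, j)} ∈ Γ.carrier := by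
    intro p
    apply clan_iUnion Γ (fun j : Fin N => {s : Σ _ : I, Vt N | s.2 = (p, j)})
    refine Γ.mono ?_ (h p)
    rintro ⟨i, q, j⟩ hq
    have hq' : q = p := hq
    subst hq'
    exact Set.mem_iUnion.2 ⟨j, rfl⟩
  choose j hj using h1
  have h2 : ∀ p : Fin 3, j p < j (p + 1) := by
    intro p
    obtain ⟨⟨i, s⟩, hs, ⟨i', t⟩, ht, hst⟩ := Γ.contact _ (hj p) _ (hj (p + 1))
    have hs' : s = (p, j p) := hs
    have ht' : t = (p + 1, j (p + 1)) := ht
    subst hs' ht'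
    have hne' : ∀ p : Fin 3, p ≠ p + 1 := by decide
    have hne2' : ∀ p : Fin 3, p ≠ p + 1 + 1 := by decide
    have hne := hne' p
    have hne2 := hne2' p
    rcases hst with hst | ⟨h3, h4⟩
    · have h5 := congrArg (fun z : Σ _ : I, Vt N => z.2.1) hst
      exact absurd h5 hne
    · simp only at h3
      subst h3
      rcases h4 with ⟨_, h6⟩ | ⟨h6, _⟩
      · exact h6
      · exact absurd h6 hne2
  have a := h2 0
  have b := h2 1
  have c := h2 2
  have e1 : (0 : Fin 3) + 1 = 1 := rfl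
  have e2 : (1 : Fin 3) + 1 = 2 := rfl
  have e3 : (2 : Fin 3) + 1 = 0 := rfl
  rw [e1] at a
  rw [e2] at b
  rw [e3] at c
  exact lt_irrefl _ (a.trans (b.trans c))

end constant

section unbounded

variable {I : Type} (f : I → ℕ) (hf : ∀ m, ∃ i, m < f i)

/-- positions -/
abbrev Pos : Type := Σ i : I, Fin (f i)

/-- sets whose complement has boundedly many elements in each block -/
def posFilter : Filter (Pos f) where
  sets := {S | ∃ n : ℕ, ∀ i, Set.ncard {j : Fin (f i) | (⟨i, j⟩ : Pos f) ∉ S} ≤ n}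
  univ_sets := ⟨0, fun i => by simp⟩
  sets_of_superset := by
    rintro S T ⟨n, hn⟩ hST
    refine ⟨n, fun i => (Set.ncard_le_ncard ?_ (Set.toFinite _)).trans (hn i)⟩
    intro j hj hjS
    exact hj (hST hjS)
  inter_sets := by
    rintro S T ⟨n, hn⟩ ⟨m, hm⟩
    refine ⟨n + m, fun i => ?_⟩
    have : {j : Fin (f i) | (⟨i, j⟩ : Pos f) ∉ S ∩ T} ⊆
        {j : Fin (f i) | (⟨i, j⟩ : Pos f) ∉ S} ∪ {j : Fin (f i) | (⟨i, j⟩ : Pos f) ∉ T} := by
      intro j hj
      by_contra hcon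
      simp only [Set.mem_union, Set.mem_setOf_eq, not_or, not_not] at hcon
      exact hj hcon
    refine (Set.ncard_le_ncard this (Set.toFinite _)).trans ?_
    exact (Set.ncard_union_le _ _).trans (add_le_add (hn i) (hm i))

include hf in
theorem posFilter_neBot : (posFilter f).NeBot := by
  rw [Filter.neBot_iff]
  intro h
  have h1 : (∅ : Set (Pos f)) ∈ posFilter f := by rw [h]; trivial
  obtain ⟨n, hn⟩ := h1
  obtain ⟨i, hi⟩ := hf n
  have h2 := hn i
  have h3 : {j : Fin (f i) | (⟨i, j⟩ : Pos f) ∉ (∅ : Set (Pos f))} = Set.univ := by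
    ext j; simp
  rw [h3, Set.ncard_univ, Nat.card_eq_fintype_card, Fintype.card_fin] at h2
  omega

theorem exists_pair (w : Ultrafilter (Pos f)) (hw : (w : Filter (Pos f)) ≤ posFilter f)
    (S : Set (Pos f)) (hS : S ∈ w) :
    ∃ (i : I) (j j' : Fin (f i)), j < j' ∧ (⟨i, j⟩ : Pos f) ∈ S ∧ (⟨i, j'⟩ : Pos f) ∈ S := by
  by_contra hcon
  push Not at hcon
  have h1 : Sᶜ ∈ posFilter f := by
    refine ⟨1, fun i => ?_⟩
    rw [Set.ncard_le_one (Set.toFinite _)]
    intro a ha b hb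
    have ha' : (⟨i, a⟩ : Pos f) ∈ S := by simpa using ha
    have hb' : (⟨i, b⟩ : Pos f) ∈ S := by simpa using hb
    rcases lt_trichotomy a b with h | h | h
    · exact absurd hb' (hcon i a b h ha')
    · exact h
    · exact absurd ha' (hcon i b a h hb')
  have h2 : Sᶜ ∈ w := hw h1
  exact (Ultrafilter.compl_mem_iff_notMem.1 h2) hS

include hf in
theorem exists_clan : ∃ Γ : Clan (sE (fun i : I => Ebl (f i))),
    ∀ p : Fin 3, {s : Σ i : I, Vt (f i) | s.2.1 = p} ∈ Γ.carrier := by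
  haveI := posFilter_neBot f hf
  let w : Ultrafilter (Pos f) := Ultrafilter.of (posFilter f)
  have hw : (w : Filter (Pos f)) ≤ posFilter f := Ultrafilter.of_le _
  let pb : Fin 3 → Set (Σ i : I, Vt (f i)) → Set (Pos f) := fun p X =>
    {q | (⟨q.1, (p, q.2)⟩ : Σ i : I, Vt (f i)) ∈ X}
  refine ⟨{ carrier := {X | ∃ p, pb p X ∈ w}
            univ_mem := ⟨0, Filter.univ_mem⟩
            empty_not_mem := ?_
            union_mem := ?_
            contact := ?_ }, ?_⟩
  · rintro ⟨p, hp⟩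
    exact w.empty_notMem hp
  · intro X Y
    constructor
    · rintro ⟨p, hp⟩
      rcases Ultrafilter.union_mem_iff.1 (show pb p X ∪ pb p Y ∈ w from hp) with h | h
      · exact Or.inl ⟨p, h⟩
      · exact Or.inr ⟨p, h⟩
    · rintro (⟨p, hp⟩ | ⟨p, hp⟩)
      · exact ⟨p, Filter.mem_of_superset hp fun q hq => Or.inl hq⟩
      · exact ⟨p, Filter.mem_of_superset hp fun q hq => Or.inr hq⟩
  · rintro X ⟨p, hp⟩ Y ⟨p', hp'⟩
    obtain ⟨i, j, j', hjj', ⟨h1, h2⟩, ⟨h3, h4⟩⟩ := exists_pair f w hw _ (Filter.inter_mem hp hp')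
    have hcases : ∀ p p' : Fin 3, p = p' ∨ p' = p + 1 ∨ p = p' + 1 := by decide
    rcases hcases p p' with h | h | h
    · subst h
      exact ⟨_, h1, _, h2, Or.inl rfl⟩
    · exact ⟨_, h1, _, h4, Or.inr ⟨rfl, Or.inl ⟨h, hjj'⟩⟩⟩
    · exact ⟨_, h3, _, h2, Or.inr ⟨rfl, Or.inr ⟨h, hjj'⟩⟩⟩
  · intro p
    refine ⟨p, ?_⟩
    have : pb p {s : Σ i : I, Vt (f i) | s.2.1 = p} = Set.univ :=
      Set.eq_univ_of_forall fun q => rfl
    rw [this]
    exact Filter.univ_mem

end unbounded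

theorem comb_zero {n : ℕ} {V : Type} (v : Fin n → Set V) (xs : Fin 0 → Set V) :
    (comb v xs : Fin n → Set V) = v := by
  funext l
  exact Fin.append_left v xs l

/-- **Main theorem.** For `n ≥ 3` no first-order formula of the language of contact algebras
defines the `n`-ary contact. The counterexamples are compact, `T₀`, semiregular spaces in which
every clan of the contact algebra of regular closed sets is given by a point. -/
theorem result (n : ℕ) (hn : 3 ≤ n) (φ : Lca.Formula (Fin n)) :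
    ∃ (X : Type) (_ : TopologicalSpace X),
      CompactSpace X ∧ T0Space X ∧
      (∀ U : Set X, IsOpen U → ∀ x ∈ U, ∃ a : RC X, x ∉ a.1 ∧ a.1ᶜ ⊆ U) ∧
      (∀ Γ : Set (RC X), IsClan Γ → ∃ x : X, Γ = {a | x ∈ a.1}) ∧
      ∃ v : Fin n → RC X, ¬ (φ.Realize v ↔ (⋂ l, (v l).1).Nonempty) := by
  obtain ⟨r, hr⟩ := formula_tp (m := 0) φ
  -- pigeonhole
  obtain ⟨τ, hτ⟩ := Finite.exists_infinite_fiber (fun N : ℕ => tp (Ebl N) r (xb n N))
  let S : Set ℕ := (fun N : ℕ => tp (Ebl N) r (xb n N)) ⁻¹' {τ}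
  have hS : S.Infinite := Set.infinite_coe_iff.1 hτ
  have hmem : ∀ i : S, tp (Ebl i.1) r (xb n i.1) = τ := fun i => i.2
  obtain ⟨N₀, hN₀⟩ := hS.nonempty
  let E₁ := sE (fun i : S => Ebl i.1)
  let E₂ := sE (fun _ : S => Ebl N₀)
  have hE₁ : ∀ s t, E₁ s t → E₁ t s := sE_symm _ fun i => Ebl_symm _
  have hE₂ : ∀ s t, E₂ s t → E₂ t s := sE_symm _ fun i => Ebl_symm _
  let x₁ : Fin n → Set (Σ i : S, Vt i.1) := fun l => {s | s.2.1 = cls l}
  let x₂ : Fin n → Set (Σ _ : S, Vt N₀) := fun l => {s | s.2.1 = cls l}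
  have htp : tp E₁ r x₁ = tp E₂ r x₂ := by
    apply tp_sigma
    intro i
    exact (hmem i).trans (hN₀ : _ = τ).symm
  have hiff : (@Language.Formula.Realize Lca (Set (Σ i : S, Vt i.1)) (graphStr E₁) _ φ x₁) ↔
      (@Language.Formula.Realize Lca (Set (Σ _ : S, Vt N₀)) (graphStr E₂) _ φ x₂) := by
    apply hr
    exact (congrArg (tp E₁ r) (comb_zero x₁ _)).trans
      (htp.trans (congrArg (tp E₂ r) (comb_zero x₂ _)).symm)
  -- contact fails in the second space and holds in the first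
  have hc₁ : (⋂ l, (hRC E₁ (x₁ l)).1).Nonempty := by
    obtain ⟨Γ, hΓ⟩ := exists_clan (fun i : S => i.1) (fun m => by
      obtain ⟨N, hN, hmN⟩ := hS.exists_gt m
      exact ⟨⟨N, hN⟩, hmN⟩)
    exact ⟨Γ, Set.mem_iInter.2 fun l => hΓ (cls l)⟩
  have hc₂ : ¬ (⋂ l, (hRC E₂ (x₂ l)).1).Nonempty := by
    rintro ⟨Γ, hΓ⟩
    rw [Set.mem_iInter] at hΓ
    apply no_clan S N₀ Γ
    have h0 := hΓ ⟨0, by omega⟩
    have h1 := hΓ ⟨1, by omega⟩
    have h2 := hΓ ⟨2, by omega⟩
    intro p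
    fin_cases p
    · exact h0
    · exact h1
    · exact h2
  have tr₁ : φ.Realize (fun l => hRC E₁ (x₁ l)) ↔
      (@Language.Formula.Realize Lca (Set (Σ i : S, Vt i.1)) (graphStr E₁) _ φ x₁) := by
    letI := graphStr E₁
    exact Language.StrongHomClass.realize_formula (iso E₁ hE₁) φ
  have tr₂ : φ.Realize (fun l => hRC E₂ (x₂ l)) ↔
      (@Language.Formula.Realize Lca (Set (Σ _ : S, Vt N₀)) (graphStr E₂) _ φ x₂) := by
    letI := graphStr E₂
    exact Language.StrongHomClass.realize_formula (iso E₂ hE₂) φ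
  by_cases hφ : φ.Realize (fun l => hRC E₁ (x₁ l))
  · refine ⟨Clan E₂, inferInstance, compact _, t0 _, semiregular _,
      fun Γ hΓ => clan_realized _ Γ hΓ hE₂, fun l => hRC E₂ (x₂ l), ?_⟩
    intro h
    exact hc₂ (h.1 (tr₂.2 (hiff.1 (tr₁.1 hφ))))
  · refine ⟨Clan E₁, inferInstance, compact _, t0 _, semiregular _,
      fun Γ hΓ => clan_realized _ Γ hΓ hE₁, fun l => hRC E₁ (x₁ l), ?_⟩
    intro h
    exact hφ (h.2 hc₁)

end Pool.Agent.Results.MP_2fbd40_lc.NotDefinable
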